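import Mathlib

set_option autoImplicit false

/-!
# Fair portfolios for scheduling unrelated machines cannot have polylogarithmic size
-/

namespace Pool.Agent.Results.MP_61ce55_lc.NoSmallPortfolio

open Finset

/-- The load vector of the schedule `s` (job `j` is assigned to machine `s j`). -/
noncomputable def load {d n : ℕ} (p : Fin d → Fin n → ℝ) (s : Fin n → Fin d) : Fin d → ℝ :=
  fun i => ∑ j ∈ univ.filter (fun j => s j = i), p i j

/-- The set of load vectors of all feasible schedules. -/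
def loads {d n : ℕ} (p : Fin d → Fin n → ℝ) : Set (Fin d → ℝ) := Set.range (load p)

/-- The coordinates of `x` in non-increasing order. -/
noncomputable def decr {d : ℕ} (x : Fin d → ℝ) : Fin d → ℝ :=
  x ∘ Tuple.sort (fun i => -x i)

/-- Weight vectors of ordered norms: nonzero, non-increasing, non-negative. -/
structure IsWeight {d : ℕ} (w : Fin d → ℝ) : Prop where
  antitone : Antitone w
  nonneg : ∀ k, 0 ≤ w k
  ne_zero : w ≠ 0

/-- The ordered norm with weights `w`. -/
noncomputable def ordNorm {d : ℕ} (w x : Fin d → ℝ) : ℝ := ∑ k, w k * decr x k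

/-- `X` is an `α`-approximate portfolio for the ordered norms. -/
structure IsPortfolio {d n : ℕ} (p : Fin d → Fin n → ℝ) (α : ℝ) (X : Finset (Fin d → ℝ)) :
    Prop where
  subset : ∀ x ∈ X, x ∈ loads p
  approx : ∀ w, IsWeight w → ∃ x ∈ X, ∀ y ∈ loads p, ordNorm w x ≤ α * ordNorm w y

/-! ### Sums of the largest coordinates -/

theorem decr_antitone {d : ℕ} (x : Fin d → ℝ) : Antitone (decr x) := by
  intro a b h
  have := Tuple.monotone_sort (fun i => -x i) h
  simp only [Function.comp] at this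
  unfold decr
  simp only [Function.comp]
  linarith

/-- The sum of the `K` largest coordinates. -/
noncomputable def T {d : ℕ} (K : ℕ) (x : Fin d → ℝ) : ℝ :=
  ∑ k : Fin d, if (k : ℕ) < K then decr x k else 0

theorem antitone_sum_le {d K : ℕ} {z : Fin d → ℝ} (hz : Antitone z) (h0 : ∀ k, 0 ≤ z k)
    (A : Finset (Fin d)) (hA : A.card ≤ K) :
    ∑ k ∈ A, z k ≤ ∑ k : Fin d, if (k : ℕ) < K then z k else 0 := by
  rcases le_or_gt d K with hK | hK
  · have : ∀ k : Fin d, (if (k : ℕ) < K then z k else 0) = z k := fun k =>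
      if_pos (lt_of_lt_of_le k.2 hK)
    simp only [this]
    exact Finset.sum_le_sum_of_subset_of_nonneg (subset_univ _) fun k _ _ => h0 k
  · set c := z ⟨K, hK⟩ with hc
    have h1 : ∀ k : Fin d, z k ≤ (if (k : ℕ) < K then z k - c else 0) + c := by
      intro k
      split_ifs with h
      · linarith
      · have : z k ≤ c := hz (Fin.le_def.2 (not_lt.1 h))
        linarith
    have h2 : ∀ k : Fin d, 0 ≤ (if (k : ℕ) < K then z k - c else 0) := by
      intro k
      split_ifs with h
      · have : c ≤ z k := hz (Fin.le_def.2 h.le)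
        linarith
      · exact le_rfl
    have hcard : (univ.filter fun k : Fin d => (k : ℕ) < K).card = K := by
      have : (univ.filter fun k : Fin d => (k : ℕ) < K) = Finset.Iio ⟨K, hK⟩ := by
        ext k; simp [Fin.lt_def]
      rw [this, Fin.card_Iio]
    have h3 : ∑ k : Fin d, (if (k : ℕ) < K then z k - c else 0) =
        (∑ k : Fin d, if (k : ℕ) < K then z k else 0) - K * c := by
      rw [← Finset.sum_filter, ← Finset.sum_filter, Finset.sum_sub_distrib, Finset.sum_const,
        hcard, nsmul_eq_mul]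
    calc ∑ k ∈ A, z k ≤ ∑ k ∈ A, ((if (k : ℕ) < K then z k - c else 0) + c) :=
          Finset.sum_le_sum fun k _ => h1 k
      _ = ∑ k ∈ A, (if (k : ℕ) < K then z k - c else 0) + A.card * c := by
          rw [Finset.sum_add_distrib, Finset.sum_const, nsmul_eq_mul]
      _ ≤ ∑ k : Fin d, (if (k : ℕ) < K then z k - c else 0) + K * c := by
          refine add_le_add (Finset.sum_le_sum_of_subset_of_nonneg (subset_univ _)
            fun k _ _ => h2 k) ?_
          exact mul_le_mul_of_nonneg_right (by exact_mod_cast hA) (h0 _)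
      _ = _ := by rw [h3]; ring

theorem le_T {d K : ℕ} {x : Fin d → ℝ} (h0 : ∀ k, 0 ≤ x k) (A : Finset (Fin d))
    (hA : A.card ≤ K) : ∑ a ∈ A, x a ≤ T K x := by
  set σ := Tuple.sort (fun i => -x i) with hσ
  have h1 : ∑ a ∈ A, x a = ∑ k ∈ A.map σ.symm.toEmbedding, decr x k := by
    rw [Finset.sum_map]
    refine Finset.sum_congr rfl fun a _ => ?_
    simp [decr, ← hσ]
  rw [h1]
  exact antitone_sum_le (decr_antitone x) (fun k => h0 _) _ (by rw [Finset.card_map]; exact hA)

theorem T_eq {d : ℕ} (K : ℕ) (x : Fin d → ℝ) :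
    ∃ B : Finset (Fin d), B.card ≤ K ∧ T K x = ∑ a ∈ B, x a := by
  set σ := Tuple.sort (fun i => -x i) with hσ
  refine ⟨(univ.filter fun k : Fin d => (k : ℕ) < K).map σ.toEmbedding, ?_, ?_⟩
  · rw [Finset.card_map]
    calc (univ.filter fun k : Fin d => (k : ℕ) < K).card ≤ (range K).card :=
          Finset.card_le_card_of_injOn (fun k => (k : ℕ)) (fun k hk => by
            simpa using hk) (fun a _ b _ h => Fin.ext h)
      _ = K := Finset.card_range K
  · rw [Finset.sum_map]
    unfold T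
    rw [← Finset.sum_filter]
    rfl

/-! ### The instance -/

/-- The inverse of the load of a job on its private machine. -/
def mm (R l : ℕ) : ℕ := R ^ (l + 1)

/-- The number of jobs of a gadget. -/
def nn (R l : ℕ) : ℕ := R ^ (2 * (l + 1))

/-- The machines: every gadget has a common machine (`none`) and a private one for each job. -/
abbrev Mach (G R : ℕ) : Type := Σ l : Fin G, Option (Fin (nn R l))

/-- The jobs. -/
abbrev Job (G R : ℕ) : Type := Σ l : Fin G, Fin (nn R l)

variable {G R : ℕ}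

/-- The common machine of a gadget. -/
abbrev com (l : Fin G) : Mach G R := ⟨l, none⟩

/-- The private machine of a job. -/
abbrev priv (J : Job G R) : Mach G R := ⟨J.1, some J.2⟩

/-- The processing times. -/
noncomputable def pp (B : ℝ) (b : Mach G R) (J : Job G R) : ℝ :=
  if b = com J.1 then 1 / nn R J.1 else if b = priv J then 1 / mm R J.1 else B

/-- The load of machine `b` under the schedule `s`. -/
noncomputable def L (B : ℝ) (s : Job G R → Mach G R) (b : Mach G R) : ℝ :=
  ∑ J : Job G R, if s J = b then pp B b J else 0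

theorem nn_eq (R l : ℕ) : nn R l = mm R l ^ 2 := by
  unfold nn mm; rw [← pow_mul]; congr 1; ring

theorem mm_pos (hR : 0 < R) (l : ℕ) : 0 < mm R l := pow_pos hR _

theorem nn_pos (hR : 0 < R) (l : ℕ) : 0 < nn R l := pow_pos hR _

theorem pp_nonneg {B : ℝ} (hB : 0 ≤ B) (b : Mach G R) (J : Job G R) : 0 ≤ pp B b J := by
  unfold pp; split_ifs <;> positivity

theorem L_nonneg {B : ℝ} (hB : 0 ≤ B) (s : Job G R → Mach G R) (b : Mach G R) :
    0 ≤ L B s b := by
  refine Finset.sum_nonneg fun J _ => ?_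
  split_ifs
  · exact pp_nonneg hB _ _
  · exact le_rfl

theorem le_L {B : ℝ} (hB : 0 ≤ B) (s : Job G R → Mach G R) (J : Job G R) :
    pp B (s J) J ≤ L B s (s J) := by
  have := Finset.single_le_sum (f := fun J' => if s J' = s J then pp B (s J) J' else 0)
    (fun J' _ => by
      split_ifs
      · exact pp_nonneg hB _ _
      · exact le_rfl) (mem_univ J)
  simpa [L] using this

theorem common_load {B : ℝ} (hB : 0 ≤ B) (s : Job G R → Mach G R) (l : Fin G) :
    ((univ.filter fun a : Fin (nn R l) => s ⟨l, a⟩ = com l).card : ℝ) * (1 / nn R l) ≤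
      L B s (com l) := by
  unfold L
  rw [Fintype.sum_sigma]
  refine le_trans ?_ (Finset.single_le_sum
    (f := fun l' : Fin G => ∑ a : Fin (nn R l'),
      if s ⟨l', a⟩ = com l then pp B (com l) ⟨l', a⟩ else 0)
    (fun l' _ => Finset.sum_nonneg fun a _ => by
      split_ifs
      · exact pp_nonneg hB _ _
      · exact le_rfl) (mem_univ l))
  rw [← Finset.sum_filter]
  have : ∀ a : Fin (nn R l), pp B (com l) (⟨l, a⟩ : Job G R) = 1 / nn R l := by
    intro a; simp [pp]
  simp only [this, Finset.sum_const, nsmul_eq_mul]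
  exact le_rfl

/-! ### The good schedule -/

variable {r : ℕ}

open Classical in
/-- The gadgets in the range of `φ` use their common machine, the others their private ones. -/
noncomputable def good (φ : Fin r → Fin G) (J : Job G R) : Mach G R :=
  if J.1 ∈ Set.range φ then com J.1 else priv J

theorem good_common_in {B : ℝ} (hR : 0 < R) (φ : Fin r → Fin G) {l : Fin G}
    (hl : l ∈ Set.range φ) : L B (good φ) (com l : Mach G R) = 1 := by
  unfold L
  rw [Fintype.sum_sigma, Finset.sum_eq_single l]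
  · have : ∀ a : Fin (nn R l), (if good φ (⟨l, a⟩ : Job G R) = com l then
        pp B (com l) (⟨l, a⟩ : Job G R) else 0) = 1 / nn R l := by
      intro a; simp only [good, if_pos hl, if_true, pp]
    simp only [this, Finset.sum_const, Finset.card_univ, Fintype.card_fin, nsmul_eq_mul]
    have : (0 : ℝ) < nn R l := by exact_mod_cast nn_pos hR l
    field_simp
  · intro l' _ hne
    refine Finset.sum_eq_zero fun a _ => ?_
    rw [if_neg]
    intro h
    have := congrArg Sigma.fst h
    unfold good at this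
    split_ifs at this <;> exact hne this
  · intro h; exact absurd (mem_univ _) h

theorem good_common_out {B : ℝ} (φ : Fin r → Fin G) {l : Fin G}
    (hl : l ∉ Set.range φ) : L B (good φ) (com l : Mach G R) = 0 := by
  refine Finset.sum_eq_zero fun J _ => ?_
  rw [if_neg]
  intro h
  have h1 : (good φ J).1 = l := congrArg Sigma.fst h
  unfold good at h h1
  split_ifs at h h1 with h2
  · have h3 : J.1 = l := h1
    exact hl (h3 ▸ h2)
  · obtain ⟨l', a⟩ := J
    simp only at h1
    subst h1
    simp [com, priv] at h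

theorem good_priv_in {B : ℝ} (φ : Fin r → Fin G) {l : Fin G} (a : Fin (nn R l))
    (hl : l ∈ Set.range φ) : L B (good φ) (⟨l, some a⟩ : Mach G R) = 0 := by
  refine Finset.sum_eq_zero fun J _ => ?_
  rw [if_neg]
  intro h
  have h1 : (good φ J).1 = l := congrArg Sigma.fst h
  unfold good at h h1
  split_ifs at h h1 with h2
  · obtain ⟨l', a'⟩ := J
    simp only at h1
    subst h1
    simp [com] at h
  · have h3 : J.1 = l := h1
    exact h2 (h3 ▸ hl)

theorem good_priv_out {B : ℝ} (φ : Fin r → Fin G) {l : Fin G} (a : Fin (nn R l))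
    (hl : l ∉ Set.range φ) : L B (good φ) (⟨l, some a⟩ : Mach G R) = 1 / mm R l := by
  unfold L
  rw [Finset.sum_eq_single (⟨l, a⟩ : Job G R)]
  · simp only [good, if_neg hl, if_true, pp]
    rw [if_neg]
    simp [com]
  · rintro ⟨l', a'⟩ _ hne
    rw [if_neg]
    intro h
    have h1 := congrArg Sigma.fst h
    unfold good at h h1
    split_ifs at h h1 with h2
    · simp only at h1
      subst h1
      exact hl h2
    · simp only at h1
      subst h1
      apply hne
      simp only [priv, Sigma.mk.injEq, heq_eq_eq, true_and, Option.some.injEq] at h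
      rw [h]
  · intro h; exact absurd (mem_univ _) h

open Classical in
theorem good_sum_le {B : ℝ} (hR : 0 < R) (φ : Fin r → Fin G) (K : ℕ) (A : Finset (Mach G R))
    (hA : A.card ≤ K) :
    ∑ b ∈ A, L B (good φ) b ≤
      ∑ l : Fin G, if l ∈ Set.range φ then (1 : ℝ) else (min K (nn R l) : ℕ) / mm R l := by
  have e : ∑ b ∈ A, L B (good φ) b = ∑ b, if b ∈ A then L B (good φ) b else 0 := by
    rw [← Finset.sum_filter]
    congr 1
    ext b; simp
  rw [e, Fintype.sum_sigma]
  refine Finset.sum_le_sum fun l _ => ?_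
  rw [Fintype.sum_option]
  have hm : (0 : ℝ) < mm R l := by exact_mod_cast mm_pos hR l
  by_cases hl : l ∈ Set.range φ
  · rw [if_pos hl, good_common_in hR φ hl]
    have : ∀ a : Fin (nn R l), (if (⟨l, some a⟩ : Mach G R) ∈ A then
        L B (good φ) (⟨l, some a⟩ : Mach G R) else 0) = 0 := by
      intro a; rw [good_priv_in φ a hl, ite_self]
    simp only [this, Finset.sum_const_zero, add_zero]
    split_ifs <;> norm_num
  · rw [if_neg hl, good_common_out φ hl, ite_self, zero_add]
    have : ∀ a : Fin (nn R l), (if (⟨l, some a⟩ : Mach G R) ∈ A then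
        L B (good φ) (⟨l, some a⟩ : Mach G R) else 0) =
        if (⟨l, some a⟩ : Mach G R) ∈ A then 1 / (mm R l : ℝ) else 0 := by
      intro a; rw [good_priv_out φ a hl]
    simp only [this]
    rw [← Finset.sum_filter, Finset.sum_const, nsmul_eq_mul, mul_one_div]
    refine div_le_div_of_nonneg_right ?_ hm.le
    have h1 : (univ.filter fun a : Fin (nn R l) => (⟨l, some a⟩ : Mach G R) ∈ A).card ≤ K := by
      refine le_trans (Finset.card_le_card_of_injOn
        (fun a => (⟨l, some a⟩ : Mach G R)) (fun a ha => by simpa using ha)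
        (fun a _ b _ h => by simpa using h)) hA
    have h2 : (univ.filter fun a : Fin (nn R l) => (⟨l, some a⟩ : Mach G R) ∈ A).card ≤
        nn R l := by
      refine le_trans (Finset.card_le_univ _) ?_
      rw [Fintype.card_fin]
    exact_mod_cast le_min h1 h2

open Classical in
theorem sum_bound (φ : Fin r → Fin G) (K : ℕ) (c : ℝ) (hc : 0 ≤ c)
    (h : ∀ l : Fin G, l ∉ Set.range φ → ((min K (nn R l) : ℕ) : ℝ) / mm R l ≤ c) :
    (∑ l : Fin G, if l ∈ Set.range φ then (1 : ℝ) else (min K (nn R l) : ℕ) / mm R l) ≤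
      r + G * c := by
  have h1 : (∑ l : Fin G, if l ∈ Set.range φ then (1 : ℝ) else (min K (nn R l) : ℕ) / mm R l) ≤
      ∑ l : Fin G, ((if l ∈ Set.range φ then (1 : ℝ) else 0) + c) := by
    refine Finset.sum_le_sum fun l _ => ?_
    split_ifs with hl
    · linarith
    · have := h l hl; linarith
  refine h1.trans ?_
  rw [Finset.sum_add_distrib, Finset.sum_const, Finset.card_univ, Fintype.card_fin,
    nsmul_eq_mul, Finset.sum_boole]
  have h2 : (univ.filter fun l : Fin G => l ∈ Set.range φ).card ≤ r := by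
    have : (univ.filter fun l : Fin G => l ∈ Set.range φ) ⊆ univ.image φ := by
      intro l hl
      obtain ⟨t, ht⟩ := (Finset.mem_filter.1 hl).2
      exact Finset.mem_image.2 ⟨t, mem_univ _, ht⟩
    refine (Finset.card_le_card this).trans (Finset.card_image_le.trans ?_)
    rw [Finset.card_univ, Fintype.card_fin]
  have h3 : ((univ.filter fun l : Fin G => l ∈ Set.range φ).card : ℝ) ≤ r := by exact_mod_cast h2
  linarith

theorem R_le_mm (hR : 0 < R) (l : ℕ) : R ≤ mm R l := by
  unfold mm
  calc R = R ^ 1 := (pow_one R).symm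
    _ ≤ R ^ (l + 1) := Nat.pow_le_pow_right hR (by omega)

theorem min_mul_le (hR : 0 < R) {i l : ℕ} (h : l ≠ i) :
    min (nn R i) (nn R l) * R ≤ mm R i * mm R l := by
  unfold nn mm
  rcases lt_or_gt_of_ne h with h1 | h1
  · calc min (R ^ (2 * (i + 1))) (R ^ (2 * (l + 1))) * R ≤ R ^ (2 * (l + 1)) * R :=
          Nat.mul_le_mul_right _ (min_le_right _ _)
      _ = R ^ (2 * (l + 1) + 1) := (pow_succ _ _).symm
      _ ≤ R ^ ((i + 1) + (l + 1)) := Nat.pow_le_pow_right hR (by omega)
      _ = _ := pow_add _ _ _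
  · calc min (R ^ (2 * (i + 1))) (R ^ (2 * (l + 1))) * R ≤ R ^ (2 * (i + 1)) * R :=
          Nat.mul_le_mul_right _ (min_le_left _ _)
      _ = R ^ (2 * (i + 1) + 1) := (pow_succ _ _).symm
      _ ≤ R ^ ((i + 1) + (l + 1)) := Nat.pow_le_pow_right hR (by omega)
      _ = _ := pow_add _ _ _

/-! ### Transport to `Fin d` -/

/-- The number of machines. -/
abbrev dd (G R : ℕ) : ℕ := Fintype.card (Mach G R)

/-- The number of jobs. -/
abbrev NN (G R : ℕ) : ℕ := Fintype.card (Job G R)

/-- Numbering of the machines. -/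
noncomputable def e (G R : ℕ) : Mach G R ≃ Fin (dd G R) := Fintype.equivFin _

/-- Numbering of the jobs. -/
noncomputable def eJ (G R : ℕ) : Job G R ≃ Fin (NN G R) := Fintype.equivFin _

/-- The processing times of the instance. -/
noncomputable def pF (G R : ℕ) (B : ℝ) : Fin (dd G R) → Fin (NN G R) → ℝ :=
  fun i j => pp B ((e G R).symm i) ((eJ G R).symm j)

theorem load_eq (B : ℝ) (s : Fin (NN G R) → Fin (dd G R)) (b : Mach G R) :
    load (pF G R B) s (e G R b) = L B (fun J => (e G R).symm (s (eJ G R J))) b := by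
  unfold load L pF
  rw [Finset.sum_filter, ← Equiv.sum_comp (eJ G R)]
  refine Finset.sum_congr rfl fun J _ => ?_
  simp only [Equiv.symm_apply_apply, Equiv.symm_apply_eq]

theorem load_nonneg {B : ℝ} (hB : 0 ≤ B) (s : Fin (NN G R) → Fin (dd G R))
    (i : Fin (dd G R)) : 0 ≤ load (pF G R B) s i := by
  obtain ⟨b, rfl⟩ := (e G R).surjective i
  rw [load_eq]
  exact L_nonneg hB _ _

/-- The load vector of the good schedule. -/
noncomputable def goodLoad (B : ℝ) (φ : Fin r → Fin G) : Fin (dd G R) → ℝ :=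
  load (pF G R B) fun j => e G R (good φ ((eJ G R).symm j))

theorem goodLoad_eq (B : ℝ) (φ : Fin r → Fin G) (b : Mach G R) :
    goodLoad B φ (e G R b) = L B (good φ) b := by
  unfold goodLoad
  rw [load_eq]
  simp only [Equiv.symm_apply_apply]

theorem T_good {B : ℝ} (hR : 0 < R) (φ : Fin r → Fin G) (K : ℕ) (c : ℝ) (hc : 0 ≤ c)
    (h : ∀ l : Fin G, l ∉ Set.range φ → ((min K (nn R l) : ℕ) : ℝ) / mm R l ≤ c) :
    T K (goodLoad (R := R) B φ) ≤ r + G * c := by
  classical
  obtain ⟨A, hA, hT⟩ := T_eq K (goodLoad (R := R) B φ)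
  rw [hT]
  have h1 : ∑ a ∈ A, goodLoad (R := R) B φ a =
      ∑ b ∈ A.map (e G R).symm.toEmbedding, L B (good φ) b := by
    rw [Finset.sum_map]
    refine Finset.sum_congr rfl fun a _ => ?_
    rw [← goodLoad_eq]
    simp
  rw [h1]
  exact (good_sum_le hR φ K _ (by rw [Finset.card_map]; exact hA)).trans
    (sum_bound φ K c hc h)

theorem T_good_G {B : ℝ} (hR : 0 < R) (φ : Fin r → Fin G) :
    T G (goodLoad (R := R) B φ) ≤ r + G * ((G : ℝ) / R) := by
  have hR' : (0 : ℝ) < R := by exact_mod_cast hR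
  refine T_good hR φ G _ (by positivity) fun l _ => ?_
  have h1 : ((min G (nn R l) : ℕ) : ℝ) ≤ G := by exact_mod_cast min_le_left _ _
  have h2 : (R : ℝ) ≤ mm R l := by exact_mod_cast R_le_mm hR l
  exact div_le_div₀ (Nat.cast_nonneg G) h1 hR' h2

theorem T_good_nn {B : ℝ} (hR : 0 < R) (φ : Fin r → Fin G) (t : Fin r) :
    T (nn R (φ t)) (goodLoad (R := R) B φ) ≤ r + G * ((mm R (φ t) : ℝ) / R) := by
  have hR' : (0 : ℝ) < R := by exact_mod_cast hR
  refine T_good hR φ _ _ (by positivity) fun l hl => ?_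
  have hm : (0 : ℝ) < mm R l := by exact_mod_cast mm_pos hR l
  rw [div_le_div_iff₀ hm hR']
  have hne : (l : ℕ) ≠ (φ t : ℕ) := by
    intro h
    exact hl ⟨t, (Fin.ext h).symm⟩
  exact_mod_cast min_mul_le hR hne

/-! ### The norms -/

/-- The weights of the norm attached to `φ`. -/
noncomputable def wt (E : ℝ) (φ : Fin r → Fin G) (k : Fin (dd G R)) : ℝ :=
  ∑ t : Fin r, ((if (k : ℕ) < G then 1 else 0) +
    E / mm R (φ t) * (if (k : ℕ) < nn R (φ t) then 1 else 0))

theorem wt_norm (E : ℝ) (φ : Fin r → Fin G) (x : Fin (dd G R) → ℝ) :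
    ordNorm (wt E φ) x = ∑ t : Fin r, (T G x + E / mm R (φ t) * T (nn R (φ t)) x) := by
  unfold ordNorm wt T
  simp only [Finset.sum_mul]
  rw [Finset.sum_comm]
  refine Finset.sum_congr rfl fun t _ => ?_
  rw [Finset.mul_sum, ← Finset.sum_add_distrib]
  refine Finset.sum_congr rfl fun k _ => ?_
  split_ifs <;> ring

theorem wt_isWeight {E : ℝ} (hE : 0 ≤ E) (hr : 0 < r) (hG : 0 < G) (φ : Fin r → Fin G)
    (hd : 0 < dd G R) : IsWeight (wt (R := R) E φ) where
  antitone := by
    intro a b hab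
    unfold wt
    refine Finset.sum_le_sum fun t _ => ?_
    have hab' : (a : ℕ) ≤ b := hab
    have h0 : 0 ≤ E / (mm R (φ t) : ℝ) := by positivity
    refine add_le_add ?_ (mul_le_mul_of_nonneg_left ?_ h0)
    · split_ifs with h1 h2 h2
      · exact le_rfl
      · exact absurd (lt_of_le_of_lt hab' h1) h2
      · norm_num
      · exact le_rfl
    · split_ifs with h1 h2 h2
      · exact le_rfl
      · exact absurd (lt_of_le_of_lt hab' h1) h2
      · norm_num
      · exact le_rfl
  nonneg k := by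
    unfold wt
    refine Finset.sum_nonneg fun t _ => ?_
    have h0 : 0 ≤ E / (mm R (φ t) : ℝ) := by positivity
    split_ifs <;> simp [h0, add_nonneg]
  ne_zero := by
    intro h
    have h1 := congrFun h ⟨0, hd⟩
    have h2 : (0 : ℝ) < wt E φ ⟨0, hd⟩ := by
      unfold wt
      refine Finset.sum_pos (fun t _ => ?_) ⟨⟨0, hr⟩, mem_univ _⟩
      have h0 : 0 ≤ E / (mm R (φ t) : ℝ) := by positivity
      rw [if_pos hG]
      split_ifs <;> linarith
    rw [h1] at h2
    exact lt_irrefl _ h2

theorem T_nonneg {d K : ℕ} {x : Fin d → ℝ} (h0 : ∀ k, 0 ≤ x k) : 0 ≤ T K x := by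
  have := le_T (K := K) h0 ∅ (by simp)
  simpa using this

theorem good_cost {B E : ℝ} (hE : 0 ≤ E) (hr : 0 < r) (hR : 0 < R)
    (hbig : r * ((G : ℝ) ^ 2 + E * (r + G)) ≤ R) (φ : Fin r → Fin G) :
    ordNorm (wt E φ) (goodLoad (R := R) B φ) ≤ (r : ℝ) ^ 2 + 1 := by
  have hR' : (0 : ℝ) < R := by exact_mod_cast hR
  have hr' : (0 : ℝ) < r := by exact_mod_cast hr
  rw [wt_norm]
  have h1 : ∀ t : Fin r, T G (goodLoad (R := R) B φ) +
      E / mm R (φ t) * T (nn R (φ t)) (goodLoad (R := R) B φ) ≤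
      r + ((G : ℝ) ^ 2 + E * (r + G)) / R := by
    intro t
    have hm : (0 : ℝ) < mm R (φ t) := by exact_mod_cast mm_pos hR _
    have h2 := T_good_G (B := B) hR φ
    have h3 := T_good_nn (B := B) hR φ t
    have h4 : E / mm R (φ t) * T (nn R (φ t)) (goodLoad (R := R) B φ) ≤
        E / mm R (φ t) * (r + G * ((mm R (φ t) : ℝ) / R)) :=
      mul_le_mul_of_nonneg_left h3 (by positivity)
    have h5 : E / mm R (φ t) * (r + G * ((mm R (φ t) : ℝ) / R)) =
        E * r / mm R (φ t) + E * G / R := by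
      field_simp
    have h6 : E * r / mm R (φ t) ≤ E * r / R := by
      refine div_le_div_of_nonneg_left (by positivity) hR' ?_
      exact_mod_cast R_le_mm hR _
    have h7 : ((G : ℝ) ^ 2 + E * (r + G)) / R = G * ((G : ℝ) / R) + E * r / R + E * G / R := by
      ring
    rw [h7]
    linarith
  refine (Finset.sum_le_sum fun t _ => h1 t).trans ?_
  rw [Finset.sum_const, Finset.card_univ, Fintype.card_fin, nsmul_eq_mul, mul_add]
  have h8 : (r : ℝ) * (((G : ℝ) ^ 2 + E * (r + G)) / R) ≤ 1 := by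
    rw [← mul_div_assoc, div_le_one hR']
    exact hbig
  nlinarith

/-! ### What an approximate schedule looks like -/

open Classical in
/-- The gadgets whose common machine has load at least one half. -/
noncomputable def SS (x : Fin (dd G R) → ℝ) : Finset (Fin G) :=
  univ.filter fun l => 1 / 2 ≤ x (e G R (com l))

theorem le_T_mach {K : ℕ} {x : Fin (dd G R) → ℝ} (h0 : ∀ k, 0 ≤ x k) (A : Finset (Mach G R))
    (hA : A.card ≤ K) : ∑ b ∈ A, x (e G R b) ≤ T K x := by
  have := le_T (K := K) h0 (A.map (e G R).toEmbedding) (by rw [Finset.card_map]; exact hA)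
  rw [Finset.sum_map] at this
  exact this

theorem structure_of_cost {Q : ℕ} (hr : 0 < r) (hR : 0 < R)
    (φ : Fin r → Fin G) {x : Fin (dd G R) → ℝ}
    (hx : x ∈ loads (pF G R ((Q : ℝ) + 1)))
    (hcost : ordNorm (wt (3 * (Q : ℝ)) φ) x ≤ Q) (hQ : 0 < Q) :
    (SS x).card ≤ 2 * Q ∧ ∀ t, φ t ∈ SS x := by
  classical
  obtain ⟨s, rfl⟩ := hx
  have hB : (0 : ℝ) ≤ (Q : ℝ) + 1 := by positivity
  have hQ' : (0 : ℝ) < Q := by exact_mod_cast hQ
  have hx0 : ∀ k, 0 ≤ load (pF G R ((Q : ℝ) + 1)) s k := load_nonneg hB s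
  set x := load (pF G R ((Q : ℝ) + 1)) s with hxd
  rw [wt_norm] at hcost
  have hTG0 : 0 ≤ T G x := T_nonneg hx0
  have hnn : ∀ t : Fin r, 0 ≤ T G x + 3 * (Q : ℝ) / mm R (φ t) * T (nn R (φ t)) x := by
    intro t
    have := T_nonneg (K := nn R (φ t)) hx0
    positivity
  have hterm : ∀ t : Fin r, T G x + 3 * (Q : ℝ) / mm R (φ t) * T (nn R (φ t)) x ≤ Q := fun t =>
    le_trans (Finset.single_le_sum
      (f := fun t : Fin r => T G x + 3 * (Q : ℝ) / mm R (φ t) * T (nn R (φ t)) x)
      (fun t _ => hnn t) (mem_univ t)) hcost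
  have hTG : T G x ≤ Q := by
    have h1 := hterm ⟨0, hr⟩
    have := T_nonneg (K := nn R (φ ⟨0, hr⟩)) hx0
    have h2 : 0 ≤ 3 * (Q : ℝ) / mm R (φ ⟨0, hr⟩) * T (nn R (φ ⟨0, hr⟩)) x := by positivity
    linarith
  have hG : 0 < G := lt_of_le_of_lt (Nat.zero_le _) (φ ⟨0, hr⟩).2
  set s' : Job G R → Mach G R := fun J => (e G R).symm (s (eJ G R J)) with hs'
  have hxL : ∀ b, x (e G R b) = L ((Q : ℝ) + 1) s' b := fun b => load_eq _ s b
  have hright : ∀ J : Job G R, s' J = com J.1 ∨ s' J = priv J := by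
    intro J
    by_contra hcon
    push Not at hcon
    have h1 := le_L hB s' J
    have h2 : pp ((Q : ℝ) + 1) (s' J) J = (Q : ℝ) + 1 := by
      unfold pp
      rw [if_neg hcon.1, if_neg hcon.2]
    have h3 := le_T_mach (K := G) hx0 {s' J} (by rw [Finset.card_singleton]; exact hG)
    rw [Finset.sum_singleton, hxL] at h3
    linarith
  constructor
  · have h1 := le_T_mach (K := G) hx0 ((SS x).map ⟨fun l => com l, fun _ _ h =>
      congrArg Sigma.fst h⟩) (by
        rw [Finset.card_map]
        exact (Finset.card_le_univ _).trans (by rw [Fintype.card_fin]))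
    rw [Finset.sum_map] at h1
    have h2 : ((SS x).card : ℝ) * (1 / 2) ≤ ∑ l ∈ SS x, x (e G R (com l)) := by
      rw [← nsmul_eq_mul, ← Finset.sum_const]
      refine Finset.sum_le_sum fun l hl => ?_
      exact (Finset.mem_filter.1 hl).2
    have h3 : ((SS x).card : ℝ) ≤ 2 * Q := by
      have h4 : ∑ l ∈ SS x, x (e G R (com l)) ≤ T G x := h1
      linarith
    exact_mod_cast h3
  · intro t
    unfold SS
    refine Finset.mem_filter.2 ⟨mem_univ _, ?_⟩
    by_contra hlt
    push Not at hlt
    set i := φ t with hi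
    have hm : (0 : ℝ) < mm R i := by exact_mod_cast mm_pos hR _
    have hn : (0 : ℝ) < nn R i := by exact_mod_cast nn_pos hR _
    have hnm : (nn R i : ℝ) = (mm R i : ℝ) ^ 2 := by
      rw [nn_eq]; push_cast; ring
    have h1 := common_load hB s' i
    rw [← hxL] at h1
    set Cc := univ.filter fun a : Fin (nn R i) => s' ⟨i, a⟩ = com i with hCc
    set Pc := univ.filter fun a : Fin (nn R i) => ¬ s' ⟨i, a⟩ = com i with hPc
    have hsum : Cc.card + Pc.card = nn R i := by
      have := Finset.card_filter_add_card_filter_not (s := (univ : Finset (Fin (nn R i))))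
        (fun a => s' ⟨i, a⟩ = com i)
      rw [Finset.card_univ, Fintype.card_fin] at this
      exact this
    have hsum' : (Cc.card : ℝ) + Pc.card = nn R i := by exact_mod_cast hsum
    have hC : (Cc.card : ℝ) < nn R i / 2 := by
      have h2 : (Cc.card : ℝ) * (1 / nn R i) < 1 / 2 := lt_of_le_of_lt h1 hlt
      rw [mul_one_div, div_lt_iff₀ hn] at h2
      linarith
    have hP : (nn R i : ℝ) / 2 < Pc.card := by linarith
    have h3 := le_T_mach (K := nn R i) hx0 (Pc.map ⟨fun a => (⟨i, some a⟩ : Mach G R),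
      fun a b h => by simpa using h⟩) (by
        rw [Finset.card_map]
        exact (Finset.card_le_univ _).trans (by rw [Fintype.card_fin]))
    rw [Finset.sum_map] at h3
    have h4 : (Pc.card : ℝ) * (1 / mm R i) ≤
        ∑ a ∈ Pc, x (e G R (⟨i, some a⟩ : Mach G R)) := by
      rw [← nsmul_eq_mul, ← Finset.sum_const]
      refine Finset.sum_le_sum fun a ha => ?_
      have h5 : s' ⟨i, a⟩ = priv ⟨i, a⟩ := by
        rcases hright ⟨i, a⟩ with h | h
        · exact absurd h (Finset.mem_filter.1 ha).2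
        · exact h
      have h6 := le_L hB s' ⟨i, a⟩
      rw [h5] at h6
      have h7 : pp ((Q : ℝ) + 1) (priv ⟨i, a⟩) (⟨i, a⟩ : Job G R) = 1 / mm R i := by
        unfold pp
        rw [if_neg (by simp), if_pos rfl]
      rw [h7] at h6
      rw [hxL]
      exact h6
    have h8 : (Pc.card : ℝ) * (1 / mm R i) ≤ T (nn R i) x := h4.trans h3
    have h9 : (mm R i : ℝ) / 2 < (Pc.card : ℝ) * (1 / mm R i) := by
      rw [mul_one_div, lt_div_iff₀ hm]
      rw [hnm] at hP
      nlinarith
    have h10 := hterm t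
    rw [← hi] at h10
    have h11 : 3 * (Q : ℝ) / mm R i * (mm R i / 2) < 3 * (Q : ℝ) / mm R i * T (nn R i) x :=
      mul_lt_mul_of_pos_left (h9.trans_le h8) (by positivity)
    have h12 : 3 * (Q : ℝ) / mm R i * (mm R i / 2) = 3 / 2 * Q := by
      field_simp
    linarith

theorem count {A Q : ℕ} (hA : 0 < A) (hr : 0 < r) (hG : 0 < G) (hR : 0 < R)
    (hQ : Q = A * (r ^ 2 + 1))
    (hbig : r * ((G : ℝ) ^ 2 + 3 * (Q : ℝ) * (r + G)) ≤ R)
    {X : Finset (Fin (dd G R) → ℝ)} (hX : IsPortfolio (pF G R ((Q : ℝ) + 1)) A X) :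
    G ^ r ≤ X.card * (2 * Q) ^ r := by
  classical
  have hQ0 : 0 < Q := by rw [hQ]; positivity
  have hd : 0 < dd G R := by
    rw [Fintype.card_pos_iff]
    exact ⟨⟨⟨0, hG⟩, none⟩⟩
  have hcover : (univ : Finset (Fin r → Fin G)) ⊆
      (X.filter fun x => (SS x).card ≤ 2 * Q).biUnion
        fun x => Fintype.piFinset fun _ => SS x := by
    intro φ _
    obtain ⟨x, hx, hxy⟩ := hX.approx (wt (3 * (Q : ℝ)) φ)
      (wt_isWeight (by positivity) hr hG φ hd)
    have h1 := hxy (goodLoad ((Q : ℝ) + 1) φ) ⟨_, rfl⟩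
    have h2 := good_cost (B := (Q : ℝ) + 1) (by positivity) hr hR hbig φ
    have h3 : ordNorm (wt (3 * (Q : ℝ)) φ) x ≤ Q := by
      refine h1.trans ?_
      rw [hQ]
      push_cast
      rw [hQ] at h2
      push_cast at h2
      exact mul_le_mul_of_nonneg_left h2 (Nat.cast_nonneg A)
    obtain ⟨h4, h5⟩ := structure_of_cost hr hR φ (hX.subset x hx) h3 hQ0
    refine Finset.mem_biUnion.2 ⟨x, Finset.mem_filter.2 ⟨hx, h4⟩, ?_⟩
    exact Fintype.mem_piFinset.2 h5
  have h6 := Finset.card_le_card hcover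
  rw [Finset.card_univ, Fintype.card_pi, Finset.prod_const, Finset.card_univ, Fintype.card_fin,
    Fintype.card_fin] at h6
  refine h6.trans (Finset.card_biUnion_le.trans ?_)
  calc ∑ x ∈ X.filter (fun x => (SS x).card ≤ 2 * Q), (Fintype.piFinset fun _ : Fin r => SS x).card
      ≤ ∑ x ∈ X.filter (fun x => (SS x).card ≤ 2 * Q), (2 * Q) ^ r := by
        refine Finset.sum_le_sum fun x hx => ?_
        rw [Fintype.card_piFinset, Finset.prod_const, Finset.card_univ, Fintype.card_fin]
        exact Nat.pow_le_pow_left (Finset.mem_filter.1 hx).2 r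
    _ = (X.filter fun x => (SS x).card ≤ 2 * Q).card * (2 * Q) ^ r := by
        rw [Finset.sum_const, smul_eq_mul]
    _ ≤ X.card * (2 * Q) ^ r := Nat.mul_le_mul_right _ (Finset.card_filter_le _ _)

theorem card_mach_le (hG : 0 < G) (hR : 2 * G ≤ R) : dd G R ≤ R ^ (2 * G + 1) := by
  have hR0 : 0 < R := by omega
  have h1 : dd G R = ∑ l : Fin G, (nn R l + 1) := by
    simp [dd, Fintype.card_sigma, Fintype.card_option]
  rw [h1]
  calc ∑ l : Fin G, (nn R l + 1) ≤ ∑ _l : Fin G, 2 * R ^ (2 * G) := by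
        refine Finset.sum_le_sum fun l _ => ?_
        have h2 : nn R l ≤ R ^ (2 * G) := Nat.pow_le_pow_right hR0 (by have := l.2; omega)
        have h3 : 1 ≤ R ^ (2 * G) := Nat.one_le_pow _ _ hR0
        omega
    _ = 2 * G * R ^ (2 * G) := by
        rw [Finset.sum_const, Finset.card_univ, Fintype.card_fin, smul_eq_mul]; ring
    _ ≤ R * R ^ (2 * G) := Nat.mul_le_mul_right _ hR
    _ = R ^ (2 * G + 1) := by rw [pow_succ]; ring

theorem ordNorm_nonneg {d : ℕ} {w x : Fin d → ℝ} (hw : IsWeight w) (hx : ∀ k, 0 ≤ x k) :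
    0 ≤ ordNorm w x :=
  Finset.sum_nonneg fun k _ => mul_nonneg (hw.nonneg k) (hx _)

theorem growth (K : ℝ) (r c : ℕ) : ∃ G : ℕ, 0 < G ∧ c ≤ G ∧ K * Real.log G ^ r < G := by
  have h1 := (Real.isLittleO_pow_log_id_atTop (n := r)).def
    (c := 1 / (2 * (|K| + 1))) (by positivity)
  have h2 := (tendsto_natCast_atTop_atTop (R := ℝ)).eventually h1
  obtain ⟨G, ⟨h3, h4⟩, h5⟩ := ((h2.and (Filter.eventually_ge_atTop c)).and
    (Filter.eventually_gt_atTop 0)).exists
  refine ⟨G, h5, h4, ?_⟩
  have hG : (0 : ℝ) < G := by exact_mod_cast h5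
  simp only [id, Real.norm_eq_abs] at h3
  rw [abs_of_pos hG] at h3
  calc K * Real.log G ^ r ≤ |K| * |Real.log G ^ r| := by
        rw [← abs_mul]; exact le_abs_self _
    _ ≤ |K| * (1 / (2 * (|K| + 1)) * G) := mul_le_mul_of_nonneg_left h3 (abs_nonneg _)
    _ = (|K| / (|K| + 1)) * (G / 2) := by
        have : |K| + 1 ≠ 0 := by positivity
        field_simp
    _ ≤ 1 * (G / 2) := by
        refine mul_le_mul_of_nonneg_right ?_ (by positivity)
        rw [div_le_one (by positivity)]
        linarith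
    _ < G := by linarith

/-- **Disproof of Q1**, in a strong form: for all `α`, `C` and every exponent `r` there is an
instance in which every `α`-approximate portfolio for the ordered norms has more than
`C * (log d) ^ r` elements. -/
theorem result (α C : ℝ) (r : ℕ) : ∃ (d n : ℕ) (p : Fin d → Fin n → ℝ),
    2 ≤ d ∧ 1 ≤ n ∧ (∀ i j, 0 ≤ p i j) ∧
    ∀ X : Finset (Fin d → ℝ), IsPortfolio p α X → C * Real.log d ^ r < X.card := by
  set A : ℕ := max 1 ⌈α⌉₊ with hA
  have hA0 : 0 < A := by rw [hA]; positivity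
  have hαA : α ≤ A := by
    refine (Nat.le_ceil α).trans ?_
    exact_mod_cast le_max_right 1 ⌈α⌉₊
  set r' := r + 1 with hr'
  set Q : ℕ := A * (r' ^ 2 + 1) with hQ
  set c : ℕ := r' * (1 + 3 * Q * (r' + 1)) with hc
  set K : ℝ := |C| * 9 ^ r * (2 * Q) ^ r' with hK
  obtain ⟨G, hG, hcG, hgrow⟩ := growth K r (c + 2)
  set R : ℕ := r' * (G ^ 2 + 3 * Q * (r' + G)) with hR
  have hQ0 : 0 < Q := by rw [hQ]; positivity
  have hr0 : 0 < r' := Nat.succ_pos r
  have hR2G : 2 * G ≤ R := by
    rw [hR]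
    calc 2 * G ≤ 1 * (G ^ 2 + 3 * 1 * (0 + G)) := by nlinarith
      _ ≤ r' * (G ^ 2 + 3 * Q * (r' + G)) := by
          refine Nat.mul_le_mul hr0 (Nat.add_le_add_left ?_ _)
          exact Nat.mul_le_mul (Nat.mul_le_mul_left 3 hQ0) (by omega)
  have hR0 : 0 < R := by omega
  have hRle : R ≤ G ^ 3 := by
    calc R ≤ c * G ^ 2 := by
          rw [hR, hc]
          have h1 : r' + G ≤ (r' + 1) * G ^ 2 := by nlinarith
          calc r' * (G ^ 2 + 3 * Q * (r' + G)) ≤ r' * (G ^ 2 + 3 * Q * ((r' + 1) * G ^ 2)) :=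
                Nat.mul_le_mul_left _ (Nat.add_le_add_left (Nat.mul_le_mul_left _ h1) _)
            _ = r' * (1 + 3 * Q * (r' + 1)) * G ^ 2 := by ring
      _ ≤ G * G ^ 2 := Nat.mul_le_mul_right _ (by omega)
      _ = G ^ 3 := by ring
  refine ⟨dd G R, NN G R, pF G R ((Q : ℝ) + 1), ?_, ?_, fun i j => pp_nonneg (by positivity) _ _,
    fun X hX => ?_⟩
  · have h1 : (1 : ℕ) < dd G R := by
      rw [Fintype.one_lt_card_iff]
      refine ⟨⟨⟨0, hG⟩, none⟩, ⟨⟨0, hG⟩, some ⟨0, nn_pos hR0 _⟩⟩, ?_⟩
      simp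
    exact h1
  · have : 0 < NN G R := by
      rw [Fintype.card_pos_iff]
      exact ⟨⟨⟨0, hG⟩, ⟨0, nn_pos hR0 _⟩⟩⟩
    exact this
  · have hX' : IsPortfolio (pF G R ((Q : ℝ) + 1)) (A : ℝ) X := by
      refine ⟨hX.subset, fun w hw => ?_⟩
      obtain ⟨x, hx, hxy⟩ := hX.approx w hw
      refine ⟨x, hx, fun y hy => (hxy y hy).trans ?_⟩
      refine mul_le_mul_of_nonneg_right hαA (ordNorm_nonneg hw ?_)
      obtain ⟨s, rfl⟩ := hy
      exact load_nonneg (by positivity) s
    have hcount := count hA0 hr0 hG hR0 hQ (by rw [hR]; push_cast; exact le_rfl) hX'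
    by_contra hcon
    push Not at hcon
    have hG' : (0 : ℝ) < G := by exact_mod_cast hG
    have hG1 : (1 : ℝ) ≤ G := by exact_mod_cast hG
    have hR1 : (1 : ℝ) ≤ R := by exact_mod_cast hR0
    have hlogG : 0 ≤ Real.log G := Real.log_nonneg hG1
    have hd0 : 0 < dd G R := by
      rw [Fintype.card_pos_iff]
      exact ⟨⟨⟨0, hG⟩, none⟩⟩
    have hlogd : Real.log (dd G R) ≤ 9 * G * Real.log G := by
      have h1 : Real.log (dd G R) ≤ Real.log ((R : ℝ) ^ (2 * G + 1)) := by
        refine Real.log_le_log (by exact_mod_cast hd0) ?_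
        exact_mod_cast card_mach_le hG hR2G
      rw [Real.log_pow] at h1
      have h2 : Real.log R ≤ 3 * Real.log G := by
        have : Real.log R ≤ Real.log ((G : ℝ) ^ 3) := by
          refine Real.log_le_log (by linarith) ?_
          exact_mod_cast hRle
        rw [Real.log_pow] at this
        exact_mod_cast this
      have h3 : 0 ≤ Real.log R := Real.log_nonneg hR1
      push_cast at h1
      have h4 : (2 * (G : ℝ) + 1) * Real.log R ≤ (3 * G) * (3 * Real.log G) :=
        mul_le_mul (by linarith) h2 h3 (by positivity)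
      calc Real.log (dd G R) ≤ (2 * (G : ℝ) + 1) * Real.log R := h1
        _ ≤ _ := h4
        _ = _ := by ring
    have hlogd0 : 0 ≤ Real.log (dd G R) := Real.log_nonneg (by exact_mod_cast hd0)
    have h5 : (X.card : ℝ) ≤ |C| * (9 * G * Real.log G) ^ r := by
      refine hcon.trans ?_
      refine (mul_le_mul_of_nonneg_right (le_abs_self C) (by positivity)).trans ?_
      exact mul_le_mul_of_nonneg_left (pow_le_pow_left₀ hlogd0 hlogd r) (abs_nonneg C)
    have h6 : (G : ℝ) ^ r' ≤ X.card * (2 * Q) ^ r' := by exact_mod_cast hcount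
    have h7 : (G : ℝ) ^ r' ≤ (K * Real.log G ^ r) * G ^ r := by
      refine h6.trans ?_
      refine (mul_le_mul_of_nonneg_right h5 (by positivity)).trans (le_of_eq ?_)
      rw [hK, mul_pow, mul_pow]
      ring
    rw [hr', pow_succ, mul_comm ((G : ℝ) ^ r)] at h7
    have h8 : (G : ℝ) ≤ K * Real.log G ^ r := le_of_mul_le_mul_right h7 (by positivity)
    linarith

end Pool.Agent.Results.MP_61ce55_lc.NoSmallPortfolio
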